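import Pool.Agent.V11193.PresColC

/-!
# MP_2870db_co, Q1: proper colourings with prescribed colour class sizes

For every finite simple graph `G` on `n` vertices with maximum degree `Δ`, every `q ≥ 1` and every
vector `(n_1, ..., n_q)` of nonnegative integers with sum `n` and with every
`n_i ≤ ⌊n / (Δ + 1)⌋`, the graph `G` has a proper colouring with colours `1, ..., q` in which
exactly `n_i` vertices receive colour `i`, for every `i`.

The proof (files `PresColA`, `PresColB`, `PresColC`) extends the argument of Kierstead and Kostochka
for the Hajnal-Szemerédi theorem to class sizes that are not equal.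
-/

namespace Pool.Agent.Results.MP_2870db_co.PrescribedSizes

open Finset Pool.Agent.V11193.PresCol

theorem result :
    ∀ (V : Type*) [Fintype V] (G : SimpleGraph V) [DecidableRel G.Adj] (q : ℕ) (n : Fin q → ℕ),
      1 ≤ q → ∑ i, n i = Fintype.card V →
      (∀ i, n i ≤ Fintype.card V / (G.maxDegree + 1)) →
      ∃ σ : V → Fin q, (∀ u v, G.Adj u v → σ u ≠ σ v) ∧
        ∀ i, Fintype.card {v : V // σ v = i} = n i := by
  intro V _ G _ q n hq hsum hn
  have : Nonempty (Fin q) := ⟨⟨0, by omega⟩⟩
  obtain ⟨f, _, hP, hs⟩ := main_col (V := V) n (Fintype.card V / (G.maxDegree + 1)) _ G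
    (Finset.univ : Finset V) (Finset.univ : Finset (Fin q)) G.maxDegree rfl
    (by
      intro v _
      have h1 : dg G Finset.univ v = G.degree v := by
        unfold dg
        rw [← G.card_neighborFinset_eq_degree v]
        congr 1
        ext x
        simp
      rw [h1]
      exact G.degree_le_maxDegree v)
    (fun c _ => hn c)
    (by
      rw [Finset.card_univ]
      exact Nat.div_mul_le_self _ _)
    (by rw [Finset.card_univ]; exact hsum)
  refine ⟨f, fun u v huv => hP u (Finset.mem_univ _) v (Finset.mem_univ _) huv, ?_⟩
  intro i
  rw [← hs i (Finset.mem_univ _), Fintype.card_subtype]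
  unfold cls
  congr 1
  ext x
  simp

end Pool.Agent.Results.MP_2870db_co.PrescribedSizes
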